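import Mathlib

/-! A space built from the ultrafilter-tree topology on sequences and a Lindelöf P-space. -/

namespace Pool.Agent.P8H90.Tp

open Set Filter Topology PiNat

abbrev S := ℕ → ℕ
abbrev Nd := List ℕ
abbrev Q := Nd × Finset S

/-- a nonprincipal ultrafilter on the natural numbers -/
class Ult where
  U : Ultrafilter ℕ
  le : (U : Filter ℕ) ≤ cofinite

variable [Ult]

def Ok (A : Nd → Set ℕ) : Prop := ∀ v, A v ∈ Ult.U

def Z (X : Set S) : Type := X ⊕ Q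

variable {X : Set S}

def a (x : X) : Z X := Sum.inl x
def b (q : Q) : Z X := Sum.inr q

theorem cas (p : Z X) : (∃ x, p = a x) ∨ ∃ q, p = b q := by
  rcases p with x | q
  · exact Or.inl ⟨x, rfl⟩
  · exact Or.inr ⟨q, rfl⟩

theorem ab (x : X) (q : Q) : a x ≠ b q := Sum.inl_ne_inr
theorem b_inj {q q' : Q} (h : (b q : Z X) = b q') : q = q' := Sum.inr_injective h
theorem a_inj {x y : X} (h : (a x : Z X) = a y) : x = y := Sum.inl_injective h

def On (p : Z X) (v : Nd) : Prop :=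
  Sum.elim (fun x : X => res x.1 v.length = v) (fun q : Q => v <:+ q.1) p

def G (p : Z X) (F : Finset S) : Prop := Sum.elim (fun _ : X => True) (fun q : Q => F ⊆ q.2) p

theorem on_a {x : X} {v : Nd} : On (a x) v ↔ res x.1 v.length = v := Iff.rfl
theorem on_b {q : Q} {v : Nd} : On (b q : Z X) v ↔ v <:+ q.1 := Iff.rfl
theorem g_a {x : X} {F : Finset S} : G (a x) F := trivial
theorem g_b {q : Q} {F : Finset S} : G (b q : Z X) F ↔ F ⊆ q.2 := Iff.rfl

theorem res_suf (x : S) {m n : ℕ} (h : m ≤ n) : res x m <:+ res x n := by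
  induction n, h using Nat.le_induction with
  | base => exact List.suffix_refl _
  | succ n _ ih => rw [res_succ]; exact ih.trans (List.suffix_cons _ _)

theorem suf_eq {u v w : Nd} (h : u <:+ w) (h' : v <:+ w) (e : u.length = v.length) : u = v :=
  (List.suffix_of_suffix_length_le h h' e.le).eq_of_length e

theorem on_res (x : X) (n : ℕ) : On (a x) (res x.1 n) := by rw [on_a, res_length]

theorem on_suf {p : Z X} {v w : Nd} (h : On p w) (hv : v <:+ w) : On p v := by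
  rcases cas p with ⟨x, rfl⟩ | ⟨q, rfl⟩
  · exact suf_eq (h ▸ res_suf x.1 hv.length_le) hv (res_length _ _)
  · exact hv.trans h

theorem on_cmp {p : Z X} {v w : Nd} (h : On p v) (h' : On p w) (e : v.length ≤ w.length) :
    v <:+ w := by
  rcases cas p with ⟨x, rfl⟩ | ⟨q, rfl⟩
  · rw [← on_a.1 h, ← on_a.1 h']; exact res_suf _ e
  · exact List.suffix_of_suffix_length_le h h' e

theorem on_cons {x : X} {k : ℕ} {v : Nd} (h : On (a x) (k :: v)) : x.1 v.length = k := by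
  have := on_a.1 h
  rw [List.length_cons, res_succ] at this
  exact (List.cons.inj this).1

def V (t : Nd) (A : Nd → Set ℕ) (F : Finset S) : Set (Z X) :=
  {p | On p t ∧ (∀ k v, On p (k :: v) → t <:+ v → k ∈ A v) ∧ G p F}

def N (q : Q) (C : Set S) : Set (Z X) :=
  {p | ∃ s, p = b (q.1, s) ∧ q.2 ⊆ s ∧ ∀ x ∈ s, x ∈ C → x ∈ q.2}

theorem mem_V {x : X} {t A F} :
    a x ∈ V t A F ↔ res x.1 t.length = t ∧ ∀ n, t.length ≤ n → x.1 n ∈ A (res x.1 n) := by
  refine ⟨fun h => ⟨h.1, fun n hn => h.2.1 _ _ (on_res x (n + 1)) ?_⟩, fun h => ⟨h.1, ?_, g_a⟩⟩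
  · exact on_cmp h.1 (on_res x n) (by rwa [res_length])
  · intro k v h1 h2
    have := h.2 _ h2.length_le
    rwa [on_cons h1, on_a.1 (on_suf h1 (List.suffix_cons _ _))] at this

theorem g_mono {p : Z X} {F F' : Finset S} (h : G p F') (hF : F ⊆ F') : G p F := by
  rcases cas p with ⟨x, rfl⟩ | ⟨q, rfl⟩
  · exact g_a
  · exact hF.trans h

theorem V_sub {x : X} {t A F n A' F'} (h : a x ∈ V t A F) (hn : t.length ≤ n)
    (hA : ∀ v, A' v ⊆ A v) (hF : F ⊆ F') : V (res x.1 n) A' F' ⊆ (V t A F : Set (Z X)) := by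
  rintro p ⟨h1, h2, h3⟩
  refine ⟨on_suf h1 (on_cmp h.1 (on_res x n) (by rwa [res_length])), fun k v k1 k2 => ?_,
    g_mono h3 hF⟩
  by_cases hv : n ≤ v.length
  · exact hA _ (h2 k v k1 (on_cmp h1 (on_suf k1 (List.suffix_cons _ _)) (by rwa [res_length])))
  · refine h.2.1 k v (on_suf (on_res x n) (on_cmp k1 h1 ?_)) k2
    rw [res_length, List.length_cons]; omega

theorem V_self {x : X} {t A F n} (F' : Finset S) (h : a x ∈ V t A F) (hn : t.length ≤ n) :
    a x ∈ V (res x.1 n) A F' :=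
  mem_V.2 ⟨by rw [res_length], fun m hm => (mem_V.1 h).2 m (by rw [res_length] at hm; omega)⟩

theorem N_self (q : Q) (C : Set S) : (b q : Z X) ∈ N q C := ⟨q.2, rfl, Finset.Subset.refl _, fun _ h _ => h⟩

theorem N_mono (q : Q) {C C' : Set S} (h : C ⊆ C') : (N q C' : Set (Z X)) ⊆ N q C := by
  rintro p ⟨s, h1, h2, h3⟩
  exact ⟨s, h1, h2, fun x hx hc => h3 x hx (h hc)⟩

theorem mem_N {q q' : Q} {C : Set S} :
    (b q' : Z X) ∈ N q C ↔ q'.1 = q.1 ∧ q.2 ⊆ q'.2 ∧ ∀ x ∈ q'.2, x ∈ C → x ∈ q.2 := by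
  refine ⟨?_, fun h => ⟨q'.2, by rw [← h.1], h.2⟩⟩
  rintro ⟨s, h1, h2⟩
  rw [b_inj h1]
  exact ⟨rfl, h2⟩

theorem not_N {x : X} {q C} : a x ∉ N q C := fun ⟨_, h, _⟩ => ab _ _ h

theorem ok_univ : Ok fun _ => univ := fun _ => univ_mem

instance : TopologicalSpace (Z X) where
  IsOpen O := (∀ x : X, a x ∈ O → ∃ n A F, Ok A ∧ a x ∈ V (res x.1 n) A F ∧ V (res x.1 n) A F ⊆ O) ∧
    ∀ q, b q ∈ O → ∃ C : Set S, C.Countable ∧ N q C ⊆ O
  isOpen_univ := ⟨fun x _ => ⟨0, fun _ => univ, ∅, ok_univ, mem_V.2 (by simp), subset_univ _⟩,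
    fun _ _ => ⟨∅, countable_empty, subset_univ _⟩⟩
  isOpen_inter := by
    classical
    rintro O O' ⟨h1, h2⟩ ⟨k1, k2⟩
    refine ⟨fun x hx => ?_, fun q hq => ?_⟩
    · obtain ⟨n, A, F, a1, a2, a3⟩ := h1 x hx.1
      obtain ⟨n', A', F', b1, b2, b3⟩ := k1 x hx.2
      refine ⟨max n n', fun v => A v ∩ A' v, F ∪ F', fun v => inter_mem (a1 v) (b1 v),
        mem_V.2 ⟨by rw [res_length], fun m hm => ⟨(mem_V.1 a2).2 m ?_, (mem_V.1 b2).2 m ?_⟩⟩,
        subset_inter ((V_sub a2 ?_ (fun _ => inter_subset_left) Finset.subset_union_left).trans a3)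
          ((V_sub b2 ?_ (fun _ => inter_subset_right) Finset.subset_union_right).trans b3)⟩
      all_goals simp only [res_length] at *; omega
    · obtain ⟨C, a1, a2⟩ := h2 q hq.1
      obtain ⟨C', b1, b2⟩ := k2 q hq.2
      exact ⟨C ∪ C', a1.union b1, subset_inter ((N_mono q subset_union_left).trans a2)
        ((N_mono q subset_union_right).trans b2)⟩
  isOpen_sUnion := by
    intro T hT
    refine ⟨?_, ?_⟩
    · rintro x ⟨O, hO, hx⟩
      obtain ⟨n, A, F, a1, a2, a3⟩ := (hT O hO).1 x hx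
      exact ⟨n, A, F, a1, a2, a3.trans (subset_sUnion_of_mem hO)⟩
    · rintro q ⟨O, hO, hx⟩
      obtain ⟨C, a1, a2⟩ := (hT O hO).2 q hx
      exact ⟨C, a1, a2.trans (subset_sUnion_of_mem hO)⟩

theorem op {O : Set (Z X)} : IsOpen O ↔
    (∀ x : X, a x ∈ O → ∃ n A F, Ok A ∧ a x ∈ V (res x.1 n) A F ∧ V (res x.1 n) A F ⊆ O) ∧
    ∀ q, b q ∈ O → ∃ C : Set S, C.Countable ∧ N q C ⊆ O := Iff.rfl

def Cyl (t : Nd) : Set (Z X) := {p | On p t}

theorem cyl_eq (t : Nd) : (Cyl t : Set (Z X)) = V t (fun _ => univ) ∅ := by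
  ext p
  refine ⟨fun h => ⟨h, fun _ _ _ _ => trivial, ?_⟩, fun h => h.1⟩
  rcases cas p with ⟨x, rfl⟩ | ⟨q, rfl⟩
  · exact g_a
  · exact Finset.empty_subset _

theorem V_open {t A} (F : Finset S) (hA : Ok A) : IsOpen (V t A F : Set (Z X)) := by
  refine ⟨fun x hx => ⟨t.length, A, F, hA, V_self F hx le_rfl,
    V_sub hx le_rfl (fun _ => Subset.rfl) (Finset.Subset.refl _)⟩, fun q hq => ⟨∅, countable_empty, ?_⟩⟩
  rintro _ ⟨s, rfl, h, -⟩
  exact ⟨hq.1, hq.2.1, (g_b.1 hq.2.2).trans h⟩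

theorem cyl_open (t : Nd) : IsOpen (Cyl t : Set (Z X)) := cyl_eq (X := X) t ▸ V_open ∅ ok_univ

theorem out {x : X} {t A F} (h : a x ∉ V t A F) :
    ∀ᶠ m in atTop, ∀ p : Z X, On p (res x.1 m) → p ∉ V t A F := by
  rw [mem_V, not_and_or] at h
  rcases h with h | h
  · filter_upwards [eventually_ge_atTop t.length] with m hm p h1 h2
    exact h (on_suf (on_res x m) (on_cmp h2.1 h1 (by rwa [res_length])))
  · push Not at h
    obtain ⟨n, h1, h2⟩ := h
    filter_upwards [eventually_ge_atTop (n + 1)] with m hm p k1 k2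
    have k3 := on_suf k1 (res_suf x.1 hm)
    exact h2 (k2.2.1 _ _ k3 (on_cmp k2.1 (on_suf k1 (res_suf x.1 (by omega)))
      (by rwa [res_length])))

theorem V_clopen {t A} (F : Finset S) (hA : Ok A) : IsClopen (V t A F : Set (Z X)) := by
  refine ⟨⟨⟨fun x hx => ?_, fun q hq => ⟨F, F.countable_toSet, ?_⟩⟩⟩, V_open F hA⟩
  · obtain ⟨m, hm⟩ := (out hx).exists
    refine ⟨m, fun _ => univ, ∅, ok_univ, ?_, fun p hp => hm p hp.1⟩
    rw [← cyl_eq]; exact on_res x m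
  · rintro _ ⟨s, rfl, h1, h2⟩ h
    exact hq ⟨h.1, h.2.1, fun x hx => h2 x (h.2.2 hx) hx⟩

theorem N_open (q : Q) {C : Set S} (hC : C.Countable) : IsOpen (N q C : Set (Z X)) := by
  refine ⟨fun x hx => (not_N hx).elim, fun q' hq => ⟨C, hC, ?_⟩⟩
  rintro _ ⟨s, rfl, h1, h2⟩
  rw [mem_N] at hq ⊢
  exact ⟨hq.1, hq.2.1.trans h1, fun x hx hc => hq.2.2 x (h2 x hx hc) hc⟩

theorem N_clopen (q : Q) {C : Set S} (hC : C.Countable) : IsClopen (N q C : Set (Z X)) := by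
  refine ⟨⟨⟨fun x _ => ⟨q.1.length + 1, fun _ => univ, ∅, ok_univ, ?_, ?_⟩,
    fun q' hq => ⟨C ∪ q.2, hC.union q.2.countable_toSet, ?_⟩⟩⟩, N_open q hC⟩
  · rw [← cyl_eq]; exact on_res x _
  · rintro p hp ⟨s, rfl, -⟩
    have := (on_b.1 hp.1).length_le
    rw [res_length] at this
    exact absurd this (Nat.not_succ_le_self _)
  · rintro _ ⟨s, rfl, h1, h2⟩ h
    rw [mem_N] at h
    exact hq (mem_N.2 ⟨h.1, fun x hx => h2 x (h.2.1 hx) (Or.inr hx),
      fun x hx hc => h.2.2 x (h1 hx) hc⟩)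

theorem basis : TopologicalSpace.IsTopologicalBasis {s : Set (Z X) | IsClopen s} := by
  refine TopologicalSpace.isTopologicalBasis_of_isOpen_of_nhds (fun _ h => h.isOpen)
    fun p O hp hO => ?_
  rcases cas p with ⟨x, rfl⟩ | ⟨q, rfl⟩
  · obtain ⟨n, A, F, h1, h2, h3⟩ := hO.1 x hp
    exact ⟨_, V_clopen F h1, h2, h3⟩
  · obtain ⟨C, h1, h2⟩ := hO.2 q hp
    exact ⟨_, N_clopen q h1, N_self q C, h2⟩

instance : T0Space (Z X) := by
  refine t0Space_iff_exists_isOpen_xor_mem _ |>.2 fun p p' h => ?_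
  rcases cas p with ⟨x, rfl⟩ | ⟨q, rfl⟩ <;> rcases cas p' with ⟨x', rfl⟩ | ⟨q', rfl⟩
  · by_contra hn
    refine h (congrArg a (Subtype.ext (res_injective (funext fun n => ?_))))
    by_contra hne
    refine hn ⟨Cyl (res x.1 n), cyl_open _, Or.inl ⟨on_res x n, fun k => hne ?_⟩⟩
    have := on_a.1 k
    rw [res_length] at this
    exact this.symm
  · exact ⟨_, N_open q' countable_empty, Or.inr ⟨N_self _ _, not_N⟩⟩
  · exact ⟨_, N_open q countable_empty, Or.inl ⟨N_self _ _, not_N⟩⟩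
  · refine ⟨_, N_open q q'.2.countable_toSet, Or.inl ⟨N_self _ _, fun k => h ?_⟩⟩
    rw [mem_N] at k
    exact congrArg b (Prod.ext k.1.symm (Finset.Subset.antisymm k.2.1 fun x hx => k.2.2 x hx hx))

theorem t35 : T35Space (Z X) :=
  { CompletelyRegularSpace.of_isTopologicalBasis_clopens (basis (X := X)) with }

theorem dense_b : Dense (range (b : Q → Z X)) := by
  refine dense_iff_inter_open.2 ?_
  rintro O hO ⟨p, hp⟩
  rcases cas p with ⟨x, rfl⟩ | ⟨q, rfl⟩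
  · obtain ⟨n, A, F, -, -, h3⟩ := hO.1 x hp
    refine ⟨b (res x.1 n, F), h3 ⟨List.suffix_refl _, fun k v h1 h2 => ?_, Finset.Subset.refl _⟩, _, rfl⟩
    have := (on_b.1 h1).length_le
    have := h2.length_le
    simp only [List.length_cons] at *
    omega
  · exact ⟨_, hp, q, rfl⟩

theorem lind (c : Q → Set S) (hc : ∀ q, (c q).Countable) :
    ∃ T : Set Q, T.Countable ∧ ∀ q', ∃ q ∈ T, (b q' : Z X) ∈ N q (c q) := by
  classical
  have h0 : ∀ C : Set S, C.Countable → {q : Q | (q.2 : Set S) ⊆ C}.Countable := fun C hC => by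
    have := hC.to_subtype
    refine (countable_range fun r : Nd × Finset C =>
      ((r.1, r.2.map (Function.Embedding.subtype _)) : Q)).mono ?_
    intro q hq
    refine ⟨(q.1, q.2.subtype (· ∈ C)), Prod.ext rfl ?_⟩
    exact Finset.subtype_map_of_mem fun x hx => hq hx
  obtain ⟨C, c0, c1⟩ : ∃ C : ℕ → Set S, C 0 = ∅ ∧
      ∀ n, C (n + 1) = C n ∪ ⋃ q ∈ {q : Q | (q.2 : Set S) ⊆ C n}, c q :=
    ⟨fun n => Nat.rec ∅ (fun _ D => D ∪ ⋃ q ∈ {q : Q | (q.2 : Set S) ⊆ D}, c q) n, rfl, fun _ => rfl⟩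
  have c2 : ∀ n, (C n).Countable := fun n => by
    induction n with
    | zero => rw [c0]; exact countable_empty
    | succ n ih => rw [c1]; exact ih.union ((h0 _ ih).biUnion fun q _ => hc q)
  have c3 : Monotone C := monotone_nat_of_le_succ fun n => by rw [c1]; exact subset_union_left
  refine ⟨_, h0 _ (countable_iUnion c2), fun q' => ?_⟩
  have c4 : ((q'.2.filter (· ∈ ⋃ n, C n) : Finset S) : Set S) ⊆ ⋃ n, C n := fun x hx =>
    (Finset.mem_filter.1 hx).2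
  obtain ⟨n, hn⟩ : ∃ n, ((q'.2.filter (· ∈ ⋃ n, C n) : Finset S) : Set S) ⊆ C n := by
    have := (eventually_all_finset (l := atTop) (q'.2.filter (· ∈ ⋃ n, C n))
      (p := fun x n => x ∈ C n)).2 fun x hx => by
        obtain ⟨n, hn⟩ := mem_iUnion.1 (c4 hx)
        exact (eventually_ge_atTop n).mono fun m hm => c3 hm hn
    exact this.exists
  refine ⟨(q'.1, q'.2.filter (· ∈ ⋃ n, C n)), c4, mem_N.2 ⟨rfl, Finset.filter_subset _ _,
    fun x hx h => Finset.mem_filter.2 ⟨hx, mem_iUnion.2 ⟨n + 1, ?_⟩⟩⟩⟩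
  rw [c1]
  exact Or.inr (mem_biUnion (x := (q'.1, q'.2.filter (· ∈ ⋃ n, C n))) hn h)

end Pool.Agent.P8H90.Tp
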