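import Pool.Agent.P8H90.Tp.T1

/-! Pure decision for ultrafilter trees, Luzin sets under CH. -/

namespace Pool.Agent.P8H90.Tp

open Set Filter Topology PiNat

variable [Ult] {X : Set S}

def H1 (X : Set S) : Prop := ∀ t A, Ok A → ∃ x : X, a x ∈ V t A ∅

def H2 (X : Set S) : Prop :=
  ∀ A, Ok A → {x : X | ¬ ∀ᶠ n in atTop, x.1 n ∈ A (res x.1 n)}.Countable

def Disc (l : ℕ) (E : Set X) : Prop :=
  ∀ y : S, ∃ m, {x ∈ E | ∀ i < m, l ≤ i → x.1 i ≤ y i}.Finite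

def P (l : ℕ) (W : X → Set (Z X)) (u : Nd) : Prop :=
  ∃ E : Set X, ∃ A, E.Countable ∧ Ok A ∧ (∀ x ∈ E, On (a x) u) ∧ Disc l E ∧
    ∀ y : X, a y ∈ V u A ∅ → ∃ x ∈ E, a y ∈ W x

theorem P_step {l : ℕ} {W : X → Set (Z X)} {u : Nd} (hu : l ≤ u.length)
    (h : {k | P l W (k :: u)} ∈ Ult.U) : P l W u := by
  have h0 : ∀ k, ∃ E : Set X, ∃ A, P l W (k :: u) → E.Countable ∧ Ok A ∧
      (∀ x ∈ E, On (a x) (k :: u)) ∧ Disc l E ∧
      ∀ y : X, a y ∈ V (k :: u) A ∅ → ∃ x ∈ E, a y ∈ W x := fun k => by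
    by_cases hk : P l W (k :: u)
    · obtain ⟨E, A, h⟩ := hk
      exact ⟨E, A, fun _ => h⟩
    · exact ⟨∅, fun _ => univ, fun h => absurd h hk⟩
  choose E A hE using h0
  refine ⟨⋃ k ∈ {k | P l W (k :: u)}, E k,
    fun v => {j | (v = u → P l W (j :: u)) ∧ ∀ k, P l W (k :: u) → k :: u <:+ v → j ∈ A k v},
    (to_countable _).biUnion fun k hk => (hE k hk).1, fun v => ?_, fun x hx => ?_, fun y => ?_,
    fun y hy => ?_⟩
  · by_cases hv : ∃ k, P l W (k :: u) ∧ k :: u <:+ v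
    · obtain ⟨k, k1, k2⟩ := hv
      refine mem_of_superset (inter_mem h ((hE k k1).2.1 v)) fun j hj => ⟨fun _ => hj.1, ?_⟩
      intro k' _ k3
      rw [(List.cons.inj (suf_eq k3 k2 rfl)).1]
      exact hj.2
    · exact mem_of_superset h fun j hj => ⟨fun _ => hj, fun k k1 k2 => (hv ⟨k, k1, k2⟩).elim⟩
  · obtain ⟨k, k1, k2⟩ := mem_iUnion₂.1 hx
    exact on_suf ((hE k k1).2.2.1 x k2) (List.suffix_cons _ _)
  · have h1 : ∀ k, ∃ m, P l W (k :: u) → {x ∈ E k | ∀ i < m, l ≤ i → x.1 i ≤ y i}.Finite :=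
      fun k => by
        by_cases hk : P l W (k :: u)
        · obtain ⟨m, hm⟩ := (hE k hk).2.2.2.1 y
          exact ⟨m, fun _ => hm⟩
        · exact ⟨0, fun h => absurd h hk⟩
    choose m hm using h1
    obtain ⟨M, hM⟩ := ((finite_Iic (y u.length)).image m).bddAbove
    refine ⟨max M (u.length + 1), (((finite_Iic (y u.length)).inter_of_left
      {k | P l W (k :: u)}).biUnion fun k hk => hm k hk.2).subset ?_⟩
    rintro x ⟨hx, h2⟩
    obtain ⟨k, k1, k2⟩ := mem_iUnion₂.1 hx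
    have k3 : k ≤ y u.length := by
      rw [← on_cons ((hE k k1).2.2.1 x k2)]
      exact h2 _ (by omega) hu
    refine mem_biUnion (x := k) ⟨k3, k1⟩ ⟨k2, fun i hi => h2 i ?_⟩
    have := hM ⟨k, k3, rfl⟩
    omega
  · have k0 : On (a y) (y.1 u.length :: u) := by
      have := on_res y (u.length + 1)
      rwa [res_succ, on_a.1 hy.1] at this
    have k1 := (hy.2.1 _ _ k0 (List.suffix_refl _)).1 rfl
    obtain ⟨x, h1, h2⟩ := (hE _ k1).2.2.2.2 y ⟨k0, fun j v j1 j2 =>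
      (hy.2.1 j v j1 ((List.suffix_cons _ _).trans j2)).2 _ k1 j2, g_a⟩
    exact ⟨x, mem_biUnion (x := y.1 u.length) k1 h1, h2⟩

theorem step1 (h1 : H1 X) (t : Nd) (W : X → Set (Z X))
    (hW : ∀ x : X, On (a x) t → ∃ m A F, Ok A ∧ a x ∈ V (res x.1 m) A F ∧
      V (res x.1 m) A F ⊆ W x) : P t.length W t := by
  by_contra h
  obtain ⟨x, hx⟩ := h1 t (fun v => {k | ¬ P t.length W v → t.length ≤ v.length →
      ¬ P t.length W (k :: v)}) fun v => by
    by_cases hv : ¬ P t.length W v ∧ t.length ≤ v.length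
    · exact mem_of_superset (Ultrafilter.compl_mem_iff_notMem.2 fun k => hv.1 (P_step hv.2 k))
        fun k hk _ _ => hk
    · exact univ_mem' fun k k1 k2 => (hv ⟨k1, k2⟩).elim
  have h2 : ∀ n, t.length ≤ n → ¬ P t.length W (res x.1 n) := fun n hn => by
    induction n, hn using Nat.le_induction with
    | base => rwa [on_a.1 hx.1]
    | succ n hn ih => exact (mem_V.1 hx).2 n hn ih (by rwa [res_length])
  obtain ⟨m, A, F, k1, k2, k3⟩ := hW x hx.1
  refine h2 (max m t.length) (le_max_right _ _) ⟨{x}, A, countable_singleton _, k1, ?_,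
    fun y => ⟨0, (finite_singleton x).subset fun _ h => h.1⟩, fun y hy => ⟨x, rfl, k3 ?_⟩⟩
  · rintro _ rfl
    exact on_res _ _
  · exact V_sub (F' := F) k2 (by rw [res_length]; omega) (fun _ => Subset.rfl)
      (Finset.Subset.refl _) ⟨hy.1, hy.2.1, g_a⟩

theorem lf_pair {Y ι κ : Type} [TopologicalSpace Y] {D : ι → Set Y} (hD : LocallyFinite D)
    {f : ι → κ → Set Y} (hf : ∀ i, LocallyFinite (f i)) (h : ∀ i k, f i k ⊆ D i) :
    LocallyFinite fun p : ι × κ => f p.1 p.2 := fun y => by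
  obtain ⟨O, h1, h2⟩ := hD y
  choose O' k1 k2 using fun i => hf i y
  refine ⟨O ∩ ⋂ i ∈ {i | (D i ∩ O).Nonempty}, O' i, inter_mem h1 ((biInter_mem h2).2 fun i _ => k1 i),
    (h2.biUnion fun i _ => (k2 i).image (Prod.mk i)).subset ?_⟩
  rintro ⟨i, k⟩ ⟨z, z1, z2, z3⟩
  have : (D i ∩ O).Nonempty := ⟨z, h i k z1, z2⟩
  exact mem_biUnion (x := i) this ⟨k, ⟨z, z1, mem_iInter₂.1 z3 i this⟩, rfl⟩

theorem suf_fin (v : Nd) : {t : Nd | t <:+ v}.Finite :=
  v.tails.finite_toSet.subset fun t ht => (List.mem_tails t v).2 ht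

theorem ex_act (R : Nd → Nd → Prop) : ∃ Act : Nd → Prop, ∀ t,
    Act t ↔ ∀ t0 : Nd, t0.length < t.length → t0 <:+ t → Act t0 → R t0 t := by
  have wf : WellFounded fun s t : Nd => s.length < t.length := InvImage.wf List.length wellFounded_lt
  exact ⟨wf.fix fun t ih => ∀ (t0 : Nd) (h : t0.length < t.length), t0 <:+ t → ih t0 h → R t0 t,
    fun t => by rw [wf.fix_eq]⟩

end Pool.Agent.P8H90.Tp
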