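import Pool.Agent.P8H90.Tp.T2

/-! Every base of `Z X` contains a locally finite cover. -/

namespace Pool.Agent.P8H90.Tp

open Set Filter Topology PiNat TopologicalSpace

variable [Ult] {X : Set S}

theorem cov (h1 : H1 X) (h2 : H2 X) (A : Nd → Nd → Set ℕ) (hA : ∀ t, Ok (A t))
    (W : Nd → X → Set (Z X)) (hW : ∀ t x, On (a x) t → a x ∈ W t x)
    (ho : ∀ t x (y : X), a y ∉ W t x → ∀ᶠ m in atTop, ∀ p, On p (res y.1 m) → p ∉ W t x) :
    ∃ (d : Nd → X) (Act : Nd → Prop), (∀ t, On (a (d t)) t) ∧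
      (∀ t t0 : Nd, t0.length < t.length → t0 <:+ t → Act t → Act t0 →
        ∀ p, On p t → p ∉ V t0 (A t0) ∅ ∪ W t0 (d t0)) ∧
      ∀ x : X, ∃ n, Act (res x.1 n) ∧
        a x ∈ V (res x.1 n) (A (res x.1 n)) ∅ ∪ W (res x.1 n) (d (res x.1 n)) := by
  obtain ⟨C, hC, c1⟩ : ∃ C : Set X, C.Countable ∧ ∀ x ∉ C, ∀ᶠ n in atTop,
      ∀ t, t <:+ res x.1 n → x.1 n ∈ A t (res x.1 n) :=
    ⟨_, h2 (fun v => ⋂ t ∈ {t | t <:+ v}, A t v) fun v =>
      (biInter_mem (suf_fin v)).2 fun t _ => hA t v, fun x hx =>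
      (not_not.1 hx).mono fun n hn t ht => mem_iInter₂.1 hn t ht⟩
  obtain ⟨f, hf⟩ := countable_iff_exists_injOn.1 hC
  have h3 : ∀ t, ∃ y : X, On (a y) t ∧ ∀ x ∈ C, On (a x) t → y ∈ C ∧ f y ≤ f x := fun t => by
    by_cases h : {x ∈ C | On (a x) t}.Nonempty
    · exact ⟨Function.argminOn f _ h, (Function.argminOn_mem f _ h).2, fun x x1 x2 =>
        ⟨(Function.argminOn_mem f _ h).1, Function.argminOn_le f _ (show x ∈ {x ∈ C | On (a x) t}
          from ⟨x1, x2⟩)⟩⟩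
    · obtain ⟨y, hy⟩ := h1 t _ ok_univ
      exact ⟨y, hy.1, fun x x1 x2 => (h ⟨x, x1, x2⟩).elim⟩
  choose d d1 d2 using h3
  obtain ⟨Act, hAct⟩ := ex_act fun t0 t => ∀ p, On p t → p ∉ V t0 (A t0) ∅ ∪ W t0 (d t0)
  refine ⟨d, Act, d1, fun t t0 k1 k2 k3 k4 => (hAct t).1 k3 t0 k1 k2 k4, fun x => ?_⟩
  by_contra hx
  push Not at hx
  have fr : ∀ M, ∃ n, M ≤ n ∧ Act (res x.1 n) := fun M => by
    by_contra hn
    push Not at hn
    have : ∀ᶠ m in atTop, ∀ i ∈ Iio M, Act (res x.1 i) → ∀ p, On p (res x.1 m) →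
        p ∉ V (res x.1 i) (A (res x.1 i)) ∅ ∪ W (res x.1 i) (d (res x.1 i)) := by
      refine (eventually_all_finite (finite_Iio M)).2 fun i _ => ?_
      by_cases hi : Act (res x.1 i)
      · filter_upwards [out fun h => hx i hi (Or.inl h), ho _ _ x fun h => hx i hi (Or.inr h)]
          with m m1 m2 _ p hp h
        exact h.elim (m1 p hp) (m2 p hp)
      · exact Eventually.of_forall fun _ h => absurd h hi
    obtain ⟨m, m1, m2⟩ := (this.and (eventually_ge_atTop M)).exists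
    refine hn m m2 ((hAct _).2 fun t0 _ k2 k3 => ?_)
    have e := on_a.1 (on_suf (on_res x m) k2)
    rw [← e] at k3 ⊢
    exact m1 _ (not_le.1 fun h => hn _ h k3) k3
  by_cases hc : x ∈ C
  · have : ∀ j, ∃ n, Act (res x.1 n) ∧ j ≤ f (d (res x.1 n)) := fun j => by
      induction j with
      | zero => exact (fr 0).imp fun n h => ⟨h.2, Nat.zero_le _⟩
      | succ j ih =>
        obtain ⟨n, n1, n2⟩ := ih
        obtain ⟨m, m1, m2⟩ := fr (n + 1)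
        have s1 := res_suf x.1 (show n ≤ m by omega)
        have k1 := (d2 _ x hc (on_res x m)).1
        have k2 := d2 (res x.1 n) _ k1 (on_suf (d1 _) s1)
        refine ⟨m, m2, lt_of_le_of_lt n2 (lt_of_le_of_ne k2.2 fun e => ?_)⟩
        refine (hAct _).1 m2 _ (by simp only [res_length]; omega) s1 n1 _ (d1 _) (Or.inr ?_)
        rw [← hf k2.1 k1 e]
        exact hW _ _ (d1 _)
    obtain ⟨n, -, hn⟩ := this (f x + 1)
    have := (d2 _ x hc (on_res x n)).2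
    omega
  · obtain ⟨M, hM⟩ := eventually_atTop.1 (c1 x hc)
    obtain ⟨n, n1, n2⟩ := fr M
    refine hx n n2 (Or.inl (mem_V.2 ⟨by rw [res_length], fun m hm => ?_⟩))
    rw [res_length] at hm
    exact hM m (by omega) _ (res_suf _ hm)

theorem tp (h1 : H1 X) (h2 : H2 X) {B : Set (Set (Z X))} (hB : IsTopologicalBasis B) :
    ∃ F ⊆ B, LocallyFinite ((↑) : F → Set (Z X)) ∧ ⋃₀ F = univ := by
  classical
  have c0 : ∀ (t : Nd) (x : X), ∃ (b : Set (Z X)) (m : ℕ) (A : Nd → Set ℕ) (F : Finset S), Ok A ∧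
      (On (a x) t → b ∈ B ∧ b ⊆ V t (fun v => Ici (x.1 v.length)) {x.1} ∧
        a x ∈ V (res x.1 m) A F ∧ V (res x.1 m) A F ⊆ b) := fun t x => by
    by_cases h : On (a x) t
    · obtain ⟨b, b1, b2, b3⟩ := hB.exists_subset_of_mem_open
        (show a x ∈ V t (fun v => Ici (x.1 v.length)) {x.1} from
          mem_V.2 ⟨h, fun n _ => by rw [res_length]; exact le_refl (x.1 n)⟩)
        (V_open _ fun v => Ult.le (by
          rw [Nat.cofinite_eq_atTop]; exact Ici_mem_atTop _))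
      obtain ⟨m, A, F, k1, k2, k3⟩ := (hB.isOpen b1).1 x b2
      exact ⟨b, m, A, F, k1, fun _ => ⟨b1, b3, k2, k3⟩⟩
    · exact ⟨∅, 0, _, ∅, ok_univ, fun k => absurd k h⟩
  choose Bx m A F ok hx using c0
  obtain ⟨W, hW⟩ : ∃ W : Nd → X → Set (Z X), ∀ t x, W t x = V (res x.1 (m t x)) (A t x) (F t x) :=
    ⟨_, fun _ _ => rfl⟩
  have wc : ∀ t x, IsClopen (W t x) := fun t x => hW t x ▸ V_clopen _ (ok t x)
  choose E At e1 e2 e3 e4 e5 using fun t => step1 h1 t (W t) fun x h =>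
    ⟨_, _, _, ok t x, (hx t x h).2.2.1, (hW t x).ge⟩
  obtain ⟨d, Act, d1, d2, d3⟩ := cov h1 h2 At e2 W (fun t x h => hW t x ▸ (hx t x h).2.2.1)
    fun t x y h => by rw [hW] at h ⊢; exact out h
  have e6 : ∀ t, ∀ x ∈ insert (d t) (E t), On (a x) t := fun t x h =>
    h.elim (fun h => h ▸ d1 t) (e3 t x)
  have l1 : LocallyFinite fun t => {p : Z X | Act t ∧ On p t} := fun p => by
    rcases cas p with ⟨x, rfl⟩ | ⟨q, rfl⟩
    · obtain ⟨n, n1, n2⟩ := d3 x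
      refine ⟨_, (((V_open ∅ (e2 _)).union (wc _ _).isOpen).inter (cyl_open (res x.1 n))).mem_nhds
        ⟨n2, on_res x n⟩, (suf_fin (res x.1 n)).subset ?_⟩
      rintro t ⟨p, ⟨p1, p2⟩, p3, p4⟩
      by_contra hn
      have hl : (res x.1 n).length < t.length := not_le.1 fun h => hn (on_cmp p2 p4 h)
      exact d2 t _ hl (on_cmp p4 p2 hl.le) p1 n1 p p2 p3
    · refine ⟨_, (N_open q countable_empty).mem_nhds (N_self q ∅), (suf_fin q.1).subset ?_⟩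
      rintro t ⟨_, ⟨-, p2⟩, s, rfl, -⟩
      exact p2
  obtain ⟨f, hf⟩ : ∃ f : Nd → X → Set (Z X), ∀ t x,
      f t x = {p | (Act t ∧ x ∈ insert (d t) (E t)) ∧ p ∈ Bx t x} := ⟨_, fun _ _ => rfl⟩
  have l2 : ∀ t, LocallyFinite (f t) := fun t p => by
    rcases cas p with ⟨y, rfl⟩ | ⟨q, rfl⟩
    · obtain ⟨M, hM⟩ := e4 t y.1
      refine ⟨_, (cyl_open (res y.1 M)).mem_nhds (on_res y M), (hM.insert (d t)).subset ?_⟩
      rintro x ⟨p, p1, p2⟩
      rw [hf] at p1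
      refine p1.1.2.imp id fun h => ⟨h, fun i i1 i2 => ?_⟩
      have k := (hx t x (e3 t x h)).2.1 p1.2
      have := k.2.1 _ _ (on_suf p2 (res_suf y.1 i1)) (on_cmp k.1 (on_suf p2 (res_suf y.1 i1.le))
        (by rwa [res_length]))
      simpa only [res_length, mem_Ici] using this
    · refine ⟨_, (N_open q (((e1 t).insert (d t)).image Subtype.val)).mem_nhds (N_self q _),
        (q.2.finite_toSet.preimage Subtype.val_injective.injOn).subset ?_⟩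
      rintro x ⟨_, p1, s, rfl, -, p2⟩
      rw [hf] at p1
      exact p2 _ (g_b.1 ((hx t x (e6 t x p1.1.2)).2.1 p1.2).2.2 (Finset.mem_singleton_self _))
        ⟨x, p1.1.2, rfl⟩
  have l3 := lf_pair l1 l2 fun t x p hp => by
    rw [hf] at hp
    exact ⟨hp.1.1, ((hx t x (e6 t x hp.1.2)).2.1 hp.2).1⟩
  obtain ⟨w, hw⟩ : ∃ w : Nd × X → Set (Z X), ∀ r,
      w r = {p | (Act r.1 ∧ r.2 ∈ insert (d r.1) (E r.1)) ∧ p ∈ W r.1 r.2} := ⟨_, fun _ => rfl⟩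
  have w1 : ∀ r, w r ⊆ f r.1 r.2 := fun r p hp => by
    rw [hw, mem_ofPred_eq, hW] at hp
    rw [hf]
    exact ⟨hp.1, (hx _ _ (e6 _ _ hp.1.2)).2.2.2 hp.2⟩
  have w2 : ∀ r, IsClopen (w r) := fun r => by
    rw [hw]
    by_cases h : Act r.1 ∧ r.2 ∈ insert (d r.1) (E r.1)
    · simp only [h, true_and, and_self, ofPred_mem_eq]
      exact wc _ _
    · simp only [h, false_and, ofPred_false]
      exact isClopen_empty
  have w3 : IsClopen (⋃ r, w r) :=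
    ⟨(l3.subset w1).isClosed_iUnion fun r => (w2 r).isClosed, isOpen_iUnion fun r => (w2 r).isOpen⟩
  have w4 : ∀ x, a x ∈ ⋃ r, w r := fun x => by
    obtain ⟨n, n1, n2 | n2⟩ := d3 x
    · obtain ⟨y, y1, y2⟩ := e5 _ x n2
      exact mem_iUnion.2 ⟨(res x.1 n, y), (hw _).ge ⟨⟨n1, Or.inr y1⟩, y2⟩⟩
    · exact mem_iUnion.2 ⟨(res x.1 n, d (res x.1 n)), (hw _).ge ⟨⟨n1, Or.inl rfl⟩, n2⟩⟩
  have c1 : ∀ q : Q, ∃ (b' : Set (Z X)) (C : Set S), C.Countable ∧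
      (b q ∈ ⋃ r, w r → N q C ⊆ ⋃ r, w r) ∧
      (b q ∉ ⋃ r, w r → b' ∈ B ∧ b' ⊆ N q ∅ ∩ (⋃ r, w r)ᶜ ∧ N q C ⊆ b') := fun q => by
    by_cases h : b q ∈ ⋃ r, w r
    · obtain ⟨C, k1, k2⟩ := w3.isOpen.2 q h
      exact ⟨∅, C, k1, fun _ => k2, fun k => absurd h k⟩
    · obtain ⟨b', b1, b2, b3⟩ := hB.exists_subset_of_mem_open
        (show b q ∈ N q ∅ ∩ (⋃ r, w r)ᶜ from ⟨N_self q _, h⟩)
        ((N_open q countable_empty).inter w3.compl.isOpen)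
      obtain ⟨C, k1, k2⟩ := (hB.isOpen b1).2 q b2
      exact ⟨b', C, k1, fun k => absurd k h, fun _ => ⟨b1, b3, k2⟩⟩
  choose Bq c q1 q2 q3 using c1
  obtain ⟨T, t1, t2⟩ := lind (X := X) c q1
  obtain ⟨g, hg⟩ : ∃ g : Q → Set (Z X), ∀ q,
      g q = {p | (q ∈ T ∧ b q ∉ ⋃ r, w r) ∧ p ∈ Bq q} := ⟨_, fun _ => rfl⟩
  have l4 : LocallyFinite g := fun p => by
    rcases cas p with ⟨y, rfl⟩ | ⟨q', rfl⟩
    · refine ⟨_, w3.isOpen.mem_nhds (w4 y), finite_empty.subset ?_⟩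
      rintro q ⟨p, p1, p2⟩
      rw [hg] at p1
      exact ((q3 q p1.1.2).2.1 p1.2).2 p2
    · refine ⟨_, (N_open q' (t1.biUnion fun q _ => q.2.countable_toSet)).mem_nhds (N_self q' _),
        ((finite_singleton q'.1).prod q'.2.powerset.finite_toSet).subset ?_⟩
      rintro q ⟨_, p1, s, rfl, -, p2⟩
      rw [hg] at p1
      have := mem_N.1 ((q3 q p1.1.2).2.1 p1.2).1
      exact ⟨this.1.symm, Finset.mem_powerset.2 fun x hx =>
        p2 x (this.2.1 hx) (mem_biUnion p1.1.1 hx)⟩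
  refine ⟨B ∩ range (Sum.elim (fun r : Nd × X => f r.1 r.2) g), inter_subset_left,
    (l3.sumElim l4).on_range.comp_injective (inclusion_injective inter_subset_right),
    eq_univ_of_forall fun p => ?_⟩
  by_cases hp : p ∈ ⋃ r, w r
  · obtain ⟨r, hr⟩ := mem_iUnion.1 hp
    have k := w1 r hr
    refine ⟨_, ⟨?_, Sum.inl r, rfl⟩, k⟩
    rw [hf] at k
    have e : f r.1 r.2 = Bx r.1 r.2 := by
      rw [hf]; ext p; exact ⟨fun h => h.2, fun h => ⟨k.1, h⟩⟩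
    change f r.1 r.2 ∈ B
    exact e ▸ (hx _ _ (e6 _ _ k.1.2)).1
  · rcases cas p with ⟨y, rfl⟩ | ⟨q', rfl⟩
    · exact absurd (w4 y) hp
    · obtain ⟨q, k1, k2⟩ := t2 q'
      have k3 : b q ∉ ⋃ r, w r := fun h => hp (q2 q h k2)
      have e : g q = Bq q := by
        rw [hg]; ext p; exact ⟨fun h => h.2, fun h => ⟨⟨k1, k3⟩, h⟩⟩
      exact ⟨g q, ⟨e ▸ (q3 q k3).1, Sum.inr q, rfl⟩, e ▸ (q3 q k3).2.2 k2⟩

end Pool.Agent.P8H90.Tp
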