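import Pool.Agent.P8H90.Tp.T2

/-! Luzin sets for the ultrafilter-tree topology from a small base and a small dominating family. -/

namespace Pool.Agent.P8H90.Tp

open Set Filter Topology PiNat Cardinal

theorem ex_rel (J : Type) (hc : #J ≤ ℵ_ 1) :
    ∃ r : J → J → Prop, (∀ j, {i | r i j}.Countable) ∧ ∀ i j, r i j ∨ r j i := by
  obtain ⟨_, _, ho⟩ := Cardinal.exists_ord_eq_type_lt J
  refine ⟨(· ≤ ·), fun j => ?_, le_total⟩
  change (Iic j).Countable
  rw [← Iio_insert]
  refine Countable.insert _ ?_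
  rw [← le_aleph0_iff_set_countable, ← Order.lt_succ_iff, succ_aleph0]
  exact (mk_Iio_lt j ho).trans_le hc

theorem ex_bd (J : Type) (hc : #J ≤ ℵ_ 1) :
    ∃ r : J → J → Prop, (∀ j, {i | r i j}.Countable) ∧ (∀ j, r j j) ∧
      ∀ T : ℕ → J, ∃ j, ∀ n, r (T n) j := by
  by_cases h : Countable J
  · exact ⟨fun _ _ => True, fun j => to_countable _, fun _ => trivial, fun T => ⟨T 0, fun _ => trivial⟩⟩
  · obtain ⟨r, h1, h2⟩ := ex_rel J hc
    refine ⟨r, h1, fun j => (h2 j j).elim id id, fun T => ?_⟩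
    by_contra hn
    push Not at hn
    refine h (countable_univ_iff.1 ((countable_iUnion fun n => h1 (T n)).mono fun j _ => ?_))
    obtain ⟨n, hn⟩ := hn j
    exact mem_iUnion.2 ⟨n, (h2 _ _).resolve_left hn⟩

theorem cofam [Ult] (I : Type) (B : I → Set ℕ) (hI : #I ≤ ℵ_ 1)
    (hB : ∀ s ∈ Ult.U, ∃ i, B i ∈ Ult.U ∧ B i ⊆ s) (D : Set (ℕ → ℕ)) (hD : #D ≤ ℵ_ 1)
    (hd : ∀ f : ℕ → ℕ, ∃ g ∈ D, ∀ᶠ n in atTop, f n ≤ g n) :
    ∃ (K : Type) (A : K → Nd → Set ℕ), #K ≤ ℵ_ 1 ∧ (∀ k, Ok (A k)) ∧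
      ∀ A', Ok A' → ∃ k, ∀ v, A k v ⊆ A' v := by
  classical
  obtain ⟨r, r1, r2, r3⟩ := ex_bd I hI
  choose e he using fun j => (r1 j).exists_eq_range ⟨j, r2 j⟩
  refine ⟨I × (D × ℕ), fun k v => ⋂ m ∈ Iic (max (k.2.1.1 (Encodable.encode v)) k.2.2),
    (if B (e k.1 m) ∈ Ult.U then B (e k.1 m) else univ), ?_, fun k v => ?_, fun A' hA' => ?_⟩
  · rw [mk_prod, mk_prod, lift_id, lift_id, lift_id, lift_id, mk_nat]
    refine (mul_le_mul' hI (mul_le_mul' hD (aleph0_le_aleph 1))).trans ?_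
    rw [mul_eq_self (aleph0_le_aleph 1), mul_eq_self (aleph0_le_aleph 1)]
  · refine (biInter_mem (finite_Iic _)).2 fun m _ => ?_
    split_ifs with h
    · exact h
    · exact univ_mem
  · choose i i1 i2 using fun v => hB _ (hA' v)
    obtain ⟨j, hj⟩ := r3 fun n => i (((Encodable.decode n : Option Nd)).getD [])
    have hj' : ∀ v, ∃ m, e j m = i v := fun v => by
      have := hj (Encodable.encode v)
      rw [Encodable.encodek, Option.getD_some] at this
      have h2 : i v ∈ {i | r i j} := this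
      rwa [he] at h2
    choose m hm using hj'
    obtain ⟨g, g1, g2⟩ := hd fun n => m (((Encodable.decode n : Option Nd)).getD [])
    obtain ⟨N, hN⟩ := eventually_atTop.1 g2
    obtain ⟨c, hc⟩ := ((finite_Iio N).image fun n =>
      m (((Encodable.decode n : Option Nd)).getD [])).bddAbove
    refine ⟨(j, ⟨g, g1⟩, c), fun v x hx => ?_⟩
    have h3 : m v ≤ max (g (Encodable.encode v)) c := by
      by_cases h : N ≤ Encodable.encode v
      · have := hN _ h
        rw [Encodable.encodek, Option.getD_some] at this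
        exact this.trans (le_max_left _ _)
      · have := hc ⟨Encodable.encode v, not_le.1 h, rfl⟩
        simp only [Encodable.encodek, Option.getD_some] at this
        exact this.trans (le_max_right _ _)
    have h4 := mem_iInter₂.1 hx (m v) h3
    simp only [hm, if_pos (i1 v)] at h4
    exact i2 v h4

theorem exX [Ult] (K : Type) (A : K → Nd → Set ℕ) (hK : #K ≤ ℵ_ 1) (hok : ∀ k, Ok (A k))
    (hA : ∀ A', Ok A' → ∃ k, ∀ v, A k v ⊆ A' v) : ∃ X : Set S, #X ≤ ℵ_ 1 ∧ H1 X ∧ H2 X := by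
  classical
  have hJ : #(Nd × K) ≤ ℵ_ 1 := by
    rw [mk_prod, lift_id, lift_id]
    refine (mul_le_mul' (show #Nd ≤ ℵ_ 1 from ?_) hK).trans (mul_eq_self (aleph0_le_aleph 1)).le
    rw [mk_eq_aleph0 Nd]
    exact aleph0_le_aleph 1
  obtain ⟨ρ, hI, ht⟩ := ex_rel (Nd × K) hJ
  have key : ∀ j : Nd × K, ∃ x : S, res x j.1.length = j.1 ∧
      (∀ n, j.1.length ≤ n → x n ∈ A j.2 (res x n)) ∧
      ∀ i, ρ i j → ∀ᶠ n in atTop, x n ∈ A i.2 (res x n) := fun j => by
    obtain ⟨e, he⟩ := (hI j).exists_eq_range ⟨j, (ht j j).elim id id⟩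
    have h1 : ∀ v : Nd, ∃ k, k ∈ A j.2 v ∧ ∀ i ≤ v.length, k ∈ A (e i).2 v := fun v => by
      have g : ∀ k', ∀ᶠ k in Ult.U, k ∈ A k' v := fun k' => hok k' v
      exact ((g _).and ((eventually_all_finite (finite_Iic v.length)).2 fun i _ => g _)).exists
    choose k hk using h1
    obtain ⟨w, w0, w1⟩ : ∃ w : ℕ → Nd, w 0 = j.1 ∧ ∀ n, w (n + 1) = k (w n) :: w n :=
      ⟨fun n => Nat.rec j.1 (fun _ v => k v :: v) n, rfl, fun _ => rfl⟩
    obtain ⟨y, hy⟩ : ∃ y : S, res y j.1.length = j.1 := by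
      generalize j.1 = t
      induction t with
      | nil => exact ⟨0, rfl⟩
      | cons c t ih =>
        obtain ⟨y, hy⟩ := ih
        refine ⟨Function.update y t.length c, ?_⟩
        rw [List.length_cons, res_succ, Function.update_self, ← hy, res_length]
        exact congrArg _ (res_eq_res.2 fun m hm => Function.update_of_ne hm.ne _ _)
    obtain ⟨x, hx⟩ : ∃ x : S, ∀ n, x n = if n < j.1.length then y n else k (w (n - j.1.length)) :=
      ⟨_, fun _ => rfl⟩
    have x0 : res x j.1.length = j.1 := by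
      rw [← hy, res_length]
      exact res_eq_res.2 fun m hm => by rw [hx, if_pos hm]
    have x1 : ∀ n, res x (j.1.length + n) = w n := fun n => by
      induction n with
      | zero => rw [w0]; exact x0
      | succ n ih =>
        rw [← add_assoc, res_succ, ih, w1, hx, if_neg (by omega), Nat.add_sub_cancel_left]
    have x2 : ∀ n, j.1.length ≤ n → x n = k (res x n) := fun n hn => by
      obtain ⟨n, rfl⟩ := Nat.exists_eq_add_of_le hn
      rw [x1, hx, if_neg (by omega), Nat.add_sub_cancel_left]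
    refine ⟨x, x0, fun n hn => x2 n hn ▸ (hk _).1, fun i hi => ?_⟩
    obtain ⟨r, rfl⟩ : i ∈ range e := by rw [← he]; exact hi
    filter_upwards [eventually_ge_atTop r, eventually_ge_atTop j.1.length] with n n1 n2
    rw [x2 n n2]
    exact (hk _).2 r (by rwa [res_length])
  choose x x1 x2 x3 using key
  refine ⟨range x, mk_range_le.trans hJ, fun t A' hA' => ?_, fun A' hA' => ?_⟩
  · obtain ⟨k, hk⟩ := hA A' hA'
    exact ⟨⟨_, (t, k), rfl⟩, mem_V.2 ⟨x1 (t, k), fun n hn => hk _ (x2 (t, k) n hn)⟩⟩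
  · obtain ⟨k, hk⟩ := hA A' hA'
    refine (((hI ([], k)).image x).preimage Subtype.val_injective).mono ?_
    rintro ⟨_, j, rfl⟩ hj
    refine ⟨j, ?_, rfl⟩
    by_contra hn
    exact hj ((x3 j ([], k) ((ht _ _).resolve_right hn)).mono fun n h => hk _ h)

end Pool.Agent.P8H90.Tp
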