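import Pool.Agent.P8H90.Tp.T3
import Pool.Agent.P8H90.Tp.T4

/-! The space is Lindelöf, its dense part is Hurewicz, a closed subspace of it is not Menger. -/

namespace Pool.Agent.P8H90.Tp

open Set Filter Topology PiNat TopologicalSpace

/-- every open base contains a locally finite cover -/
def TP (X : Type) [TopologicalSpace X] : Prop :=
  ∀ B : Set (Set X), IsTopologicalBasis B →
    ∃ F ⊆ B, LocallyFinite (fun U : F => (U : Set X)) ∧ ⋃₀ F = univ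

theorem tp_closed {Y : Type} [TopologicalSpace Y] (h : TP Y) {C : Set Y} (hC : IsClosed C) :
    TP C := by
  classical
  intro B hB
  obtain ⟨F, f1, f2, f3⟩ := h {O | IsOpen O ∧ (((↑) ⁻¹' O : Set C) ∈ B ∨ O ∩ C = ∅)} (by
    refine isTopologicalBasis_of_isOpen_of_nhds (fun O hO => hO.1) fun y W hy hW => ?_
    by_cases hc : y ∈ C
    · obtain ⟨b, b1, b2, b3⟩ := hB.exists_subset_of_mem_open
        (show (⟨y, hc⟩ : C) ∈ ((↑) ⁻¹' W : Set C) from hy) (hW.preimage continuous_subtype_val)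
      obtain ⟨O, o1, o2⟩ := isOpen_induced_iff.1 (hB.isOpen b1)
      refine ⟨O ∩ W, ⟨o1.inter hW, Or.inl ?_⟩, ⟨?_, hy⟩, inter_subset_right⟩
      · rw [preimage_inter, o2, inter_eq_left.2 b3]
        exact b1
      · have : (⟨y, hc⟩ : C) ∈ ((↑) ⁻¹' O : Set C) := o2 ▸ b2
        exact this
    · exact ⟨W ∩ Cᶜ, ⟨hW.inter hC.isOpen_compl, Or.inr (by
        ext z; simp only [mem_inter_iff, mem_compl_iff, mem_empty_iff_false]; tauto)⟩,
        ⟨hy, hc⟩, inter_subset_left⟩)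
  have k : ∀ b : {b : Set C | b ∈ B ∧ ∃ O ∈ F, ((↑) ⁻¹' O : Set C) = b}, ∃ O : F,
      ((↑) ⁻¹' (O : Set Y) : Set C) = b.1 := fun b => by
    obtain ⟨-, O, o1, o2⟩ := b.2
    exact ⟨⟨O, o1⟩, o2⟩
  choose o ho using k
  refine ⟨{b | b ∈ B ∧ ∃ O ∈ F, ((↑) ⁻¹' O : Set C) = b}, fun b hb => hb.1, ?_,
    eq_univ_of_forall fun c => ?_⟩
  · have h1 := (f2.preimage_continuous (continuous_subtype_val (p := (· ∈ C)))).comp_injective
      (g := o) fun b b' e => Subtype.ext (by rw [← ho b, ← ho b', e])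
    exact h1.subset fun b => (ho b).ge
  · obtain ⟨O, o1, o2⟩ := f3.ge (mem_univ c.1)
    have h1 : ((↑) ⁻¹' O : Set C) ∈ B := (f1 o1).2.resolve_right fun e => by
      have : c.1 ∈ O ∩ C := ⟨o2, c.2⟩
      rw [e] at this
      exact this
    exact ⟨_, ⟨h1, O, o1, rfl⟩, o2⟩

/-- the Menger property -/
def Menger (X : Type) [TopologicalSpace X] : Prop :=
  ∀ U : ℕ → Set (Set X), (∀ n, (∀ O ∈ U n, IsOpen O) ∧ ⋃₀ U n = univ) →
    ∃ V : ℕ → Set (Set X), (∀ n, V n ⊆ U n ∧ (V n).Finite) ∧ ⋃ n, ⋃₀ V n = univ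

/-- the Hurewicz property -/
def Hurewicz (X : Type) [TopologicalSpace X] : Prop :=
  ∀ U : ℕ → Set (Set X), (∀ n, (∀ O ∈ U n, IsOpen O) ∧ ⋃₀ U n = univ) →
    ∃ V : ℕ → Set (Set X), (∀ n, V n ⊆ U n ∧ (V n).Finite) ∧ ∀ y, ∀ᶠ n in atTop, y ∈ ⋃₀ V n

variable [Ult]

theorem hur (X : Set S) : Hurewicz (range (b : Q → Z X)) := fun U hU => by
  have h : ∀ (n : ℕ) (q : Q), ∃ O ∈ U n, ∃ C : Set S, C.Countable ∧
      ∀ y : range (b : Q → Z X), y.1 ∈ N q C → y ∈ O := fun n q => by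
    obtain ⟨O, h1, h2⟩ := (hU n).2.ge (mem_univ ⟨b q, q, rfl⟩)
    obtain ⟨O', k1, rfl⟩ := isOpen_induced_iff.1 ((hU n).1 O h1)
    obtain ⟨C, c1, c2⟩ := k1.2 q h2
    exact ⟨_, h1, C, c1, fun y hy => c2 hy⟩
  choose O o1 C c1 c2 using h
  obtain ⟨T, t1, t2⟩ := lind (X := X) (fun q => ⋃ n, C n q) fun q => countable_iUnion fun n => c1 n q
  obtain ⟨e, he⟩ := countable_iff_exists_subset_range.1 t1
  refine ⟨fun n => (fun i => O n (e i)) '' Iic n, fun n => ⟨?_, (finite_Iic n).image _⟩, ?_⟩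
  · rintro _ ⟨i, -, rfl⟩
    exact o1 _ _
  · rintro ⟨_, q', rfl⟩
    obtain ⟨q, k1, k2⟩ := t2 q'
    obtain ⟨i, rfl⟩ := he k1
    filter_upwards [eventually_ge_atTop i] with n hn
    exact ⟨_, ⟨i, hn, rfl⟩, c2 n _ _ (N_mono _ (subset_iUnion (fun n => C n (e i)) n) k2)⟩

theorem lindelof {X : Set S} (h : TP (Z X)) : LindelofSpace (Z X) := by
  classical
  refine ⟨isLindelof_of_countable_subcover fun {ι} U hU hc => ?_⟩
  obtain ⟨F, f1, f2, f3⟩ := h {O | IsOpen O ∧ ∃ i, O ⊆ U i} (by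
    refine isTopologicalBasis_of_isOpen_of_nhds (fun O hO => hO.1) fun y W hy hW => ?_
    obtain ⟨i, hi⟩ := mem_iUnion.1 (hc (mem_univ y))
    exact ⟨W ∩ U i, ⟨hW.inter (hU i), i, inter_subset_right⟩, ⟨hy, hi⟩, inter_subset_left⟩)
  have k : ∀ q : Q, ∃ C : Set S, C.Countable ∧
      {O : F | ((O : Set (Z X)) ∩ N q C).Nonempty}.Finite := fun q => by
    obtain ⟨W, w1, w2⟩ := f2 (b q)
    obtain ⟨W', w3, w4, w5⟩ := mem_nhds_iff.1 w1
    obtain ⟨C, c1, c2⟩ := w4.2 q w5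
    exact ⟨C, c1, w2.subset fun O hO => hO.mono (inter_subset_inter_right _ (c2.trans w3))⟩
  choose C c1 c2 using k
  obtain ⟨T, t1, t2⟩ := lind (X := X) C c1
  have ho : ∀ O : F, ∃ i, (O : Set (Z X)) ⊆ U i := fun O => (f1 O.2).2
  choose i hi using ho
  refine ⟨i '' ⋃ q ∈ T, {O : F | ((O : Set (Z X)) ∩ N q (C q)).Nonempty},
    (t1.biUnion fun q _ => (c2 q).countable).image _, fun p _ => ?_⟩
  obtain ⟨O, o1, o2⟩ := f3.ge (mem_univ p)
  obtain ⟨_, z1, q', rfl⟩ := dense_b.inter_open_nonempty O (f1 o1).1 ⟨p, o2⟩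
  obtain ⟨q, q1, q2⟩ := t2 q'
  exact mem_biUnion (x := i ⟨O, o1⟩) ⟨⟨O, o1⟩, mem_biUnion q1 ⟨_, z1, q2⟩, rfl⟩ (hi ⟨O, o1⟩ o2)

theorem closed_a {X : Set S} : IsClosed (range (a : X → Z X)) := by
  refine ⟨⟨fun x hx => (hx ⟨x, rfl⟩).elim, fun q _ => ⟨∅, countable_empty, ?_⟩⟩⟩
  rintro _ hp ⟨x, rfl⟩
  exact not_N hp

theorem notM {X : Set S} (h1 : H1 X) : ¬ Menger (range (a : X → Z X)) := fun h => by
  obtain ⟨V', h2, h3⟩ := h (fun n => (fun k => {p | ∀ x, p.1 = a x → x.1 n ≤ k}) '' univ) fun n => by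
    refine ⟨?_, eq_univ_of_forall fun p => ?_⟩
    · rintro _ ⟨k, -, rfl⟩
      refine isOpen_induced_iff.2 ⟨{p : Z X | ∀ x, p = a x → x.1 n ≤ k}, ?_, rfl⟩
      refine ⟨fun x hx => ⟨n + 1, fun _ => univ, ∅, ok_univ, ?_, ?_⟩,
        fun q _ => ⟨∅, countable_empty, ?_⟩⟩
      · rw [← cyl_eq]; exact on_res x _
      · rintro _ hp y rfl
        have := on_cons (k := x.1 n) (v := res x.1 n) hp.1
        rw [res_length] at this
        rw [this]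
        exact hx x rfl
      · rintro _ hp y rfl
        exact (not_N hp).elim
    · obtain ⟨_, x, rfl⟩ := p
      exact ⟨_, ⟨x.1 n, trivial, rfl⟩, fun y hy => by rw [a_inj hy]⟩
  choose T _ t2 t3 using fun n => (h2 n).2.exists_subset_finite_image_eq (h2 n).1
  choose g hg using fun n => (t2 n).bddAbove
  obtain ⟨x, hx⟩ := h1 [] (fun v => Ioi (g v.length)) fun v => Ult.le (by
    rw [Nat.cofinite_eq_atTop]; exact Ioi_mem_atTop _)
  obtain ⟨n, O, k1, k2⟩ := mem_iUnion.1 (h3.ge (mem_univ ⟨a x, x, rfl⟩))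
  rw [← t3] at k1
  obtain ⟨k, k3, rfl⟩ := k1
  have := (mem_V.1 hx).2 n (Nat.zero_le _)
  simp only [res_length, mem_Ioi] at this
  exact absurd ((k2 x rfl).trans (hg n k3)) (not_le.2 this)

theorem menger_closed {Y : Type} [TopologicalSpace Y] (h : Menger Y) {C : Set Y}
    (hC : IsClosed C) : Menger C := fun U hU => by
  classical
  obtain ⟨V, v1, v2⟩ := h (fun n => {O | IsOpen O ∧ (((↑) ⁻¹' O : Set C) ∈ U n ∨ O = Cᶜ)}) fun n => by
    refine ⟨fun O hO => hO.1, eq_univ_of_forall fun y => ?_⟩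
    by_cases hc : y ∈ C
    · obtain ⟨o, o1, o2⟩ := (hU n).2.ge (mem_univ (⟨y, hc⟩ : C))
      obtain ⟨O, k1, rfl⟩ := isOpen_induced_iff.1 ((hU n).1 o o1)
      exact ⟨O, ⟨k1, Or.inl o1⟩, o2⟩
    · exact ⟨Cᶜ, ⟨hC.isOpen_compl, Or.inr rfl⟩, hc⟩
  refine ⟨fun n => U n ∩ (fun O => ((↑) ⁻¹' O : Set C)) '' V n,
    fun n => ⟨inter_subset_left, ((v1 n).2.image _).subset inter_subset_right⟩,
    eq_univ_of_forall fun c => ?_⟩
  obtain ⟨n, O, o1, o2⟩ := mem_iUnion.1 (v2.ge (mem_univ c.1))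
  have h1 : ((↑) ⁻¹' O : Set C) ∈ U n := ((v1 n).1 o1).2.resolve_right fun e => by
    rw [e] at o2
    exact o2 c.2
  exact mem_iUnion.2 ⟨n, _, ⟨h1, O, o1, rfl⟩, o2⟩

end Pool.Agent.P8H90.Tp
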