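import Pool.Agent.P8H90.Tp.T5

/-! Hypotheses u = d = aleph one, the sets and the spaces obtained from them. -/

namespace Pool.Agent.P8H90.Tp

open Set Filter Topology PiNat TopologicalSpace

open Cardinal in
/-- some nonprincipal ultrafilter on the natural numbers has a base of at most aleph one sets -/
def SmallUltrafilter : Prop :=
  ∃ U : Ultrafilter ℕ, (U : Filter ℕ) ≤ cofinite ∧ ∃ B : Set (Set ℕ), #B ≤ ℵ_ 1 ∧
    ∀ s ∈ U, ∃ b ∈ B, b ∈ U ∧ b ⊆ s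

open Cardinal in
/-- some family of at most aleph one functions is dominating -/
def SmallDominating : Prop :=
  ∃ D : Set (ℕ → ℕ), #D ≤ ℵ_ 1 ∧ ∀ f : ℕ → ℕ, ∃ g ∈ D, ∀ᶠ n in atTop, f n ≤ g n

open Cardinal in
theorem of_CH (CH : (2 : Cardinal.{0}) ^ ℵ₀ = ℵ_ 1) : SmallUltrafilter ∧ SmallDominating :=
  ⟨⟨hyperfilter ℕ, hyperfilter_le_cofinite, Set.univ, by
      rw [mk_univ, ← CH]; simp, fun s hs => ⟨s, mem_univ s, hs, Subset.rfl⟩⟩,
    Set.univ, by rw [mk_univ, ← CH]; simp, fun f => ⟨f, mem_univ f, Eventually.of_forall fun _ => le_rfl⟩⟩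

open Cardinal in
theorem exists_X (hu : SmallUltrafilter) (hd : SmallDominating) :
    ∃ (_ : Ult) (X : Set S), #X ≤ ℵ_ 1 ∧ H1 X ∧ H2 X := by
  obtain ⟨U, hU, B, hB, hUB⟩ := hu
  obtain ⟨D, hD, hDd⟩ := hd
  let inst : Ult := ⟨U, hU⟩
  obtain ⟨K, A, hK, h1, h2⟩ := cofam B (fun b => b.1) hB (fun s hs => by
    obtain ⟨b, b1, b2, b3⟩ := hUB s hs
    exact ⟨⟨b, b1⟩, b2, b3⟩) D hD hDd
  obtain ⟨X, hX⟩ := exX K A hK h1 h2
  exact ⟨inst, X, hX⟩

theorem menger_countable {Y : Type} [TopologicalSpace Y] [Countable Y] : Menger Y := fun U hU => by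
  classical
  obtain ⟨e, he⟩ := exists_injective_nat Y
  choose O o1 o2 using fun n (y : Y) => (hU n).2.ge (mem_univ y)
  refine ⟨fun n => O n '' {y | e y ≤ n}, fun n => ⟨?_, ((finite_Iic n).preimage he.injOn).image _⟩,
    eq_univ_of_forall fun y => mem_iUnion.2 ⟨e y, _, ⟨y, show e y ≤ e y from le_rfl, rfl⟩, o2 _ _⟩⟩
  rintro _ ⟨y, -, rfl⟩
  exact o1 n y

open Cardinal in
theorem card_of_notM {Y : Type} [TopologicalSpace Y] (h : ¬ Menger Y) (hc : #Y ≤ ℵ_ 1) :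
    #Y = ℵ_ 1 := by
  refine le_antisymm hc ?_
  by_contra hn
  rw [← succ_aleph0, Order.succ_le_iff, not_lt, mk_le_aleph0_iff] at hn
  exact h menger_countable

end Pool.Agent.P8H90.Tp
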